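import Pool.Agent.H372R3.MD5

/-! The multiplicative Dirichlet spectrum is contained in `[0, 4/9]`; so it is not `[0, 1/2]`. -/

set_option autoImplicit false

namespace Pool.Agent.Results.MP_85fa44_nt.UpperBound

/-- The distance from `x` to the nearest integer. -/
noncomputable def distInt (x : ℝ) : ℝ := |x - round x|

/-- `m_Q(ξ,ζ)`: the minimum of `‖qξ‖ ‖qζ‖` over the integers `q` with `1 ≤ q ≤ Q`. -/
noncomputable def mQ (ξ ζ Q : ℝ) : ℝ :=
  sInf {x : ℝ | ∃ q : ℤ, 1 ≤ q ∧ (q : ℝ) ≤ Q ∧ x = distInt (q * ξ) * distInt (q * ζ)}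

/-- `L(ξ,ζ)`: the limsup of `Q m_Q(ξ,ζ)` as the real number `Q` tends to infinity. -/
noncomputable def L (ξ ζ : ℝ) : ℝ := Filter.limsup (fun Q : ℝ => Q * mQ ξ ζ Q) Filter.atTop

/-- The multiplicative Dirichlet spectrum. -/
def spectrum : Set ℝ := {t | ∃ ξ ζ : ℝ, L ξ ζ = t}

/-- The multiplicative Dirichlet spectrum is contained in `[0, 4/9]`. -/
theorem result : spectrum ⊆ Set.Icc (0 : ℝ) (4 / 9) := by
  rintro t ⟨ξ, ζ, rfl⟩
  exact ⟨H372R3.MD.LL_nonneg ξ ζ, H372R3.MD.LL_upper ξ ζ⟩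

end Pool.Agent.Results.MP_85fa44_nt.UpperBound
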